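import Pool.Agent.U307.RAD.Stm4

/-!
# Project RAD, package WIN

The integral of `|uu n 0 r| / r` over a window `[α, β]` of the unit interval is at most
`n + 4 n log (β / α)`.
-/

set_option autoImplicit false

open MeasureTheory Filter Topology Set
open Pool.Agent.U307.RAD

namespace Pool.Agent.U606.RAD

lemma uu_cont (n : ℕ) : Continuous (fun r => uu n 0 r) := by
  unfold uu; fun_prop

lemma uu_bd (hLEG : S_LEG) (hCD : S_CD) (n : ℕ) (hn : 1 ≤ n) (r : ℝ) (h0 : 0 ≤ r) (h1 : r ≤ 1) :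
    (1 - r ^ 2) * |uu n 0 r| ≤ 2 * n := by
  have h := hCD n 0 r hn
  have hn' : (0 : ℝ) < n := by exact_mod_cast hn
  have e : 2 * ((n : ℝ) * (n + ((0 : ℕ) : ℝ)) / (2 * n + ((0 : ℕ) : ℝ))) = n := by
    push_cast
    field_simp
    ring
  rw [e] at h
  have h2 : 0 ≤ 1 - r ^ 2 := by nlinarith
  have h3 : (1 - r ^ 2) * |uu n 0 r| = |(1 - r ^ 2) * uu n 0 r| := by
    rw [abs_mul, abs_of_nonneg h2]
  rw [h3, h, abs_mul, abs_of_pos hn']
  have a1 := abs_le.mp (hLEG (n - 1) r h0 h1)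
  have a2 := abs_le.mp (hLEG n r h0 h1)
  have h4 : |ph (n - 1) 0 r - ph n 0 r| ≤ 2 := by
    rw [abs_le]
    constructor <;> linarith [a1.1, a1.2, a2.1, a2.2]
  nlinarith

lemma div_int (n : ℕ) (α β : ℝ) (hα : 0 < α) (hαβ : α ≤ β) :
    IntervalIntegrable (fun r => |uu n 0 r| / r) volume α β := by
  apply ContinuousOn.intervalIntegrable
  rw [uIcc_of_le hαβ]
  apply ContinuousOn.div
  · exact (uu_cont n).abs.continuousOn
  · exact continuousOn_id
  · intro r hr
    exact (lt_of_lt_of_le hα hr.1).ne'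

lemma low (hLEG : S_LEG) (hCD : S_CD) (n : ℕ) (hn : 1 ≤ n) (α β : ℝ) (hα : 0 < α)
    (hαβ : α ≤ β) (hβ : β ^ 2 ≤ 1 / 2) :
    ∫ r in α..β, |uu n 0 r| / r ≤ 4 * n * Real.log (β / α) := by
  have h0 : (0 : ℝ) ∉ uIcc α β := by
    rw [uIcc_of_le hαβ]
    intro h
    exact absurd h.1 (not_le.mpr hα)
  have hint : ∫ r in α..β, 4 * (n : ℝ) * (1 / r) = 4 * n * Real.log (β / α) := by
    rw [intervalIntegral.integral_const_mul, integral_one_div h0]
  rw [← hint]
  apply intervalIntegral.integral_mono_on hαβ (div_int n α β hα hαβ)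
  · apply ContinuousOn.intervalIntegrable
    rw [uIcc_of_le hαβ]
    apply ContinuousOn.mul continuousOn_const
    apply ContinuousOn.div continuousOn_const continuousOn_id
    intro r hr
    exact (lt_of_lt_of_le hα hr.1).ne'
  · intro r hr
    have hr0 : 0 < r := lt_of_lt_of_le hα hr.1
    have hr2 : r ^ 2 ≤ 1 / 2 := by
      have : r ^ 2 ≤ β ^ 2 := pow_le_pow_left₀ hr0.le hr.2 2
      linarith
    have hr1 : r ≤ 1 := by nlinarith
    have hb := uu_bd hLEG hCD n hn r hr0.le hr1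
    have hu : |uu n 0 r| ≤ 4 * n := by
      have h3 : (1 / 2) * |uu n 0 r| ≤ (1 - r ^ 2) * |uu n 0 r| :=
        mul_le_mul_of_nonneg_right (by linarith) (abs_nonneg _)
      linarith
    rw [mul_one_div]
    exact div_le_div_of_nonneg_right hu hr0.le

lemma high (hMOM : S_MOM) (n : ℕ) (hn : 1 ≤ n) (α β : ℝ) (hα : 0 < α)
    (hx : 1 / 2 ≤ α ^ 2) (hαβ : α ≤ β) (hβ : β ≤ 1) :
    ∫ r in α..β, |uu n 0 r| / r ≤ n := by
  have h := (hMOM n 0 hn).2
  have hn' : (0 : ℝ) < n := by exact_mod_cast hn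
  have hβ0 : 0 < β := lt_of_lt_of_le hα hαβ
  have h0 : (0 : ℝ) ∉ uIcc α β := by
    rw [uIcc_of_le hαβ]
    intro h
    exact absurd h.1 (not_le.mpr hα)
  have hi1 : IntervalIntegrable (fun r : ℝ => uu n 0 r ^ 2 * r) volume α β :=
    (((uu_cont n).pow 2).mul continuous_id).intervalIntegrable _ _
  have hi1' : IntervalIntegrable (fun r : ℝ => uu n 0 r ^ 2 * r) volume 0 1 :=
    (((uu_cont n).pow 2).mul continuous_id).intervalIntegrable _ _
  have hi2 : IntervalIntegrable (fun r : ℝ => r ^ (-3 : ℤ)) volume α β :=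
    intervalIntegral.intervalIntegrable_zpow (Or.inr h0)
  have hmono : ∫ r in α..β, uu n 0 r ^ 2 * r ≤ ∫ r in (0 : ℝ)..1, uu n 0 r ^ 2 * r := by
    apply intervalIntegral.integral_mono_interval hα.le hαβ hβ _ hi1'
    refine (ae_restrict_mem measurableSet_Ioc).mono (fun r hr => ?_)
    exact mul_nonneg (sq_nonneg _) hr.1.le
  have hz : ∫ r in α..β, r ^ (-3 : ℤ) ≤ 1 / 2 := by
    rw [integral_zpow (Or.inr ⟨by norm_num, h0⟩)]
    have e1 : ((-3 : ℤ) + 1) = -2 := by norm_num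
    rw [e1, zpow_neg, zpow_neg]
    have e2 : β ^ (2 : ℤ) = β ^ 2 := by norm_cast
    have e3 : α ^ (2 : ℤ) = α ^ 2 := by norm_cast
    rw [e2, e3]
    have i1 : (α ^ 2)⁻¹ ≤ 2 := by
      rw [inv_le_comm₀ (by positivity) (by norm_num)]
      linarith
    have i2 : 1 ≤ (β ^ 2)⁻¹ := by
      rw [one_le_inv₀ (by positivity)]
      nlinarith
    have e4 : (((-3 : ℤ) : ℝ) + 1) = -2 := by norm_num
    rw [e4, div_le_iff_of_neg (by norm_num)]
    linarith
  have hpt : ∫ r in α..β, |uu n 0 r| / r ≤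
      ∫ r in α..β, (uu n 0 r ^ 2 * r * (1 / (4 * n)) + n * r ^ (-3 : ℤ)) := by
    apply intervalIntegral.integral_mono_on hαβ (div_int n α β hα hαβ)
      ((hi1.mul_const _).add (hi2.const_mul _))
    intro r hr
    have hr0 : 0 < r := lt_of_lt_of_le hα hr.1
    have e1 : r ^ (-3 : ℤ) = 1 / r ^ 3 := by
      rw [zpow_neg, one_div]
      norm_cast
    rw [e1]
    have hs : (|uu n 0 r|) ^ 2 = uu n 0 r ^ 2 := sq_abs _
    rw [← hs]
    set u := |uu n 0 r| with hu
    have key : 0 ≤ (u * r ^ 2 - 2 * n) ^ 2 / (4 * n * r ^ 3) := by positivity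
    have e2 : (u * r ^ 2 - 2 * n) ^ 2 / (4 * n * r ^ 3) =
        u ^ 2 * r * (1 / (4 * n)) + n * (1 / r ^ 3) - u / r := by
      field_simp
      ring
    linarith
  rw [intervalIntegral.integral_add (hi1.mul_const _) (hi2.const_mul _),
    intervalIntegral.integral_mul_const, intervalIntegral.integral_const_mul] at hpt
  have hm2 : (∫ r in α..β, uu n 0 r ^ 2 * r) * (1 / (4 * n)) ≤ n / 2 := by
    have h5 : (∫ r in α..β, uu n 0 r ^ 2 * r) ≤ 2 * ((n : ℝ) * n) := by
      refine hmono.trans (le_of_eq ?_)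
      rw [h]
      push_cast
      ring
    calc (∫ r in α..β, uu n 0 r ^ 2 * r) * (1 / (4 * n))
        ≤ (2 * ((n : ℝ) * n)) * (1 / (4 * n)) :=
          mul_le_mul_of_nonneg_right h5 (by positivity)
      _ = n / 2 := by
          field_simp
          ring
  have hm3 : (n : ℝ) * ∫ r in α..β, r ^ (-3 : ℤ) ≤ n * (1 / 2) :=
    mul_le_mul_of_nonneg_left hz hn'.le
  linarith

/-- package WIN -/
theorem t_WIN : S_LEG → S_CD → S_MOM → S_WIN := by
  intro hLEG hCD hMOM n α β hn hα hαβ hβ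
  have hn' : (0 : ℝ) < n := by exact_mod_cast hn
  have hβ0 : 0 < β := lt_of_lt_of_le hα hαβ
  have hlog : 0 ≤ Real.log (β / α) := Real.log_nonneg (by rw [one_le_div hα]; exact hαβ)
  have hlog' : 0 ≤ 4 * n * Real.log (β / α) := by positivity
  set x : ℝ := √(1 / 2) with hx
  have hx0 : 0 < x := Real.sqrt_pos.mpr (by norm_num)
  have hx2 : x ^ 2 = 1 / 2 := Real.sq_sqrt (by norm_num)
  rcases le_total β x with hbx | hbx
  · have h1 := low hLEG hCD n hn α β hα hαβ (by
      have : β ^ 2 ≤ x ^ 2 := pow_le_pow_left₀ hβ0.le hbx 2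
      linarith)
    linarith
  · rcases le_total x α with hax | hax
    · have h1 := high hMOM n hn α β hα (by
        have : x ^ 2 ≤ α ^ 2 := pow_le_pow_left₀ hx0.le hax 2
        linarith) hαβ hβ
      linarith
    · have h1 := low hLEG hCD n hn α x hα hax hx2.le
      have h2 := high hMOM n hn x β hx0 hx2.ge hbx hβ
      rw [← intervalIntegral.integral_add_adjacent_intervals (div_int n α x hα hax)
        (div_int n x β hx0 hbx)]
      have h3 : Real.log (x / α) ≤ Real.log (β / α) := by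
        apply Real.log_le_log (by positivity)
        exact div_le_div_of_nonneg_right hbx hα.le
      have h4 : 4 * n * Real.log (x / α) ≤ 4 * n * Real.log (β / α) :=
        mul_le_mul_of_nonneg_left h3 (by positivity)
      linarith

end Pool.Agent.U606.RAD
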